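import Pool.Agent.Helper30.CIR.Goals
import Mathlib

/-!
# Project CIR: packet ABS
-/

set_option autoImplicit false

open Set Filter Topology MeasureTheory

namespace Pool.Agent.Helper14.CIR

open Pool.Agent.Helper30.CIR

theorem gABS : Pool.Agent.Helper30.CIR.StmtABS := by
  intro α _ m _ v C b hv hC hlim hb0 hb
  set ν : Measure (ℝ × α) := (volume.restrict (Icc (0 : ℝ) 1)).prod m with hν
  have hmem : ∀ᵐ τ ∂(volume.restrict (Icc (0 : ℝ) 1)), τ ∈ Icc (0 : ℝ) 1 :=
    ae_restrict_mem measurableSet_Icc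
  -- the bound almost everywhere on the product
  have hbd : ∀ n, ∀ᵐ p ∂ν, |v n p.1 p.2| ≤ C := by
    intro n
    set w := (hv n).mk _ with hw
    have hw1 : StronglyMeasurable w := (hv n).stronglyMeasurable_mk
    have hw2 : ∀ᵐ p ∂ν, v n p.1 p.2 = w p := (hv n).ae_eq_mk
    have hs : MeasurableSet {p : ℝ × α | |w p| ≤ C} :=
      measurableSet_le hw1.measurable.abs measurable_const
    have h1 : ∀ᵐ p ∂ν, p ∈ {p : ℝ × α | |w p| ≤ C} := by
      rw [hν, Measure.ae_prod_mem_iff_ae_ae_mem hs]
      have h2 := Measure.ae_ae_of_ae_prod hw2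
      filter_upwards [h2, hmem] with τ h3 h4
      filter_upwards [h3, hC n τ h4] with x h5 h6
      show |w (τ, x)| ≤ C
      rw [← h5]
      exact h6
    filter_upwards [h1, hw2] with p h3 h4
    rw [h4]
    exact h3
  have hint : ∀ n, Integrable (fun p : ℝ × α => v n p.1 p.2) ν := fun n =>
    Integrable.of_bound (hv n) C (by
      filter_upwards [hbd n] with p hp
      rwa [Real.norm_eq_abs])
  -- the negative part
  have hmin : ∀ a : ℝ, |min a 0| ≤ |a| := by
    intro a
    rcases le_total a 0 with h | h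
    · rw [min_eq_left h]
    · rw [min_eq_right h, abs_zero]
      exact abs_nonneg a
  have hum : ∀ n, AEStronglyMeasurable (fun p : ℝ × α => min (v n p.1 p.2) 0) ν := fun n =>
    (hv n).inf aestronglyMeasurable_const
  have hui : ∀ n, Integrable (fun p : ℝ × α => min (v n p.1 p.2) 0) ν := fun n =>
    Integrable.of_bound (hum n) C (by
      filter_upwards [hbd n] with p hp
      rw [Real.norm_eq_abs]
      exact (hmin _).trans hp)
  -- the inner limit
  have hinner : ∀ᵐ τ ∂(volume.restrict (Icc (0 : ℝ) 1)),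
      Tendsto (fun n => ∫ x, min (v n τ x) 0 ∂m) atTop (𝓝 0) := by
    have h1 : ∀ᵐ τ ∂(volume.restrict (Icc (0 : ℝ) 1)), ∀ n,
        AEStronglyMeasurable (fun x => min (v n τ x) 0) m := by
      rw [ae_all_iff]
      intro n
      exact (hum n).prodMk_left
    filter_upwards [h1, hmem] with τ h2 h3
    have h4 : Tendsto (fun n => ∫ x, min (v n τ x) 0 ∂m) atTop (𝓝 (∫ _x, (0 : ℝ) ∂m)) := by
      refine tendsto_integral_of_dominated_convergence (fun _ => C) h2 (integrable_const C) ?_ ?_
      · intro n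
        filter_upwards [hC n τ h3] with x hx
        rw [Real.norm_eq_abs]
        exact (hmin _).trans hx
      · filter_upwards [hlim τ h3] with x hx
        rw [Metric.tendsto_atTop]
        intro e he
        obtain ⟨n0, hn0⟩ := eventually_atTop.1 (hx (-(e / 2)) (by linarith))
        refine ⟨n0, fun n hn => ?_⟩
        have h5 := hn0 n hn
        rw [Real.dist_eq, sub_zero, abs_of_nonpos (min_le_right _ _)]
        rcases le_total (v n τ x) 0 with h | h
        · rw [min_eq_left h]
          linarith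
        · rw [min_eq_right h]
          linarith
    simpa using h4
  have hJ : Tendsto (fun n => ∫ p, min (v n p.1 p.2) 0 ∂ν) atTop (𝓝 0) := by
    have h1 : ∀ n, ∫ p, min (v n p.1 p.2) 0 ∂ν =
        ∫ τ in Icc (0 : ℝ) 1, ∫ x, min (v n τ x) 0 ∂m := fun n => integral_prod _ (hui n)
    simp_rw [h1]
    have h2 : Tendsto (fun n => ∫ τ in Icc (0 : ℝ) 1, ∫ x, min (v n τ x) 0 ∂m) atTop
        (𝓝 (∫ _τ in Icc (0 : ℝ) 1, (0 : ℝ))) := by
      refine tendsto_integral_of_dominated_convergence (fun _ => C * m.real univ) ?_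
        (integrable_const _) ?_ hinner
      · intro n
        exact (hui n).integral_prod_left.aestronglyMeasurable
      · intro n
        filter_upwards [hmem] with τ hτ
        refine (norm_integral_le_of_norm_le_const (C := C) ?_)
        filter_upwards [hC n τ hτ] with x hx
        rw [Real.norm_eq_abs]
        exact (hmin _).trans hx
    simpa using h2
  have hle : ∀ n, ∫ p, min (v n p.1 p.2) 0 ∂ν ≤ - b n := by
    intro n
    have h1 : ∫ p, min (v n p.1 p.2) 0 ∂ν ≤ ∫ p, v n p.1 p.2 ∂ν :=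
      integral_mono (hui n) (hint n) fun p => min_le_left _ _
    have h2 : ∫ p, v n p.1 p.2 ∂ν = ∫ τ in Icc (0 : ℝ) 1, ∫ x, v n τ x ∂m :=
      integral_prod _ (hint n)
    have h3 : ∫ τ in Icc (0 : ℝ) 1, ∫ x, v n τ x ∂m = ∫ x, (∫ τ in Icc (0 : ℝ) 1, v n τ x) ∂m :=
      integral_integral_swap (hint n)
    have h4 : ∫ x, (∫ τ in Icc (0 : ℝ) 1, v n τ x) ∂m = ∫ x, (∫ τ in (0 : ℝ)..1, v n τ x) ∂m := by
      congr 1
      funext x
      rw [intervalIntegral.integral_of_le zero_le_one, integral_Icc_eq_integral_Ioc]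
    rw [h2, h3, h4] at h1
    exact h1.trans (hb n)
  have hJ' : Tendsto (fun n => -∫ p, min (v n p.1 p.2) 0 ∂ν) atTop (𝓝 0) := by
    simpa using hJ.neg
  exact squeeze_zero hb0 (fun n => by linarith [hle n]) hJ'

end Pool.Agent.Helper14.CIR
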